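import Mathlib
import Pool.Agent.U638.BS.Stm

/-!
Project BS (helper638), package LIN (helper446): the points of the blocking set on a line.
-/

set_option autoImplicit false

namespace Pool.Agent.U638.BS

section lin

variable {F : Type} [Field F] {p : ℕ}

theorem LIN_coord {i j k : Idx F p} {a b : F} (h : vec k = a • vec i + b • vec j) (n : Fin 3) :
    vec k n = a * vec i n + b * vec j n := by
  rw [h]
  rfl

theorem LIN_l0 (x : F) : vec (Sum.inl x : Idx F p) 0 = 1 := rfl
theorem LIN_l1 (x : F) : vec (Sum.inl x : Idx F p) 1 = x := rfl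
theorem LIN_l2 (x : F) : vec (Sum.inl x : Idx F p) 2 = x ^ p := rfl
theorem LIN_r0 (y : Inf F p) : vec (Sum.inr y : Idx F p) 0 = 0 := rfl
theorem LIN_r1 (y : Inf F p) : vec (Sum.inr y : Idx F p) 1 = 1 := rfl
theorem LIN_r2 (y : Inf F p) : vec (Sum.inr y : Idx F p) 2 = y.1 := rfl

theorem LIN_one (i j : Idx F p) (hij : i ≠ j) : LinearIndependent F ![vec i, vec j] := by
  rw [LinearIndependent.pair_iff]
  intro s t hst
  have h : ∀ n, s * vec i n + t * vec j n = 0 := by
    intro n
    have := congrFun hst n
    simpa using this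
  have h0 := h 0
  have h1 := h 1
  have h2 := h 2
  rcases i with x | y <;> rcases j with x' | y'
  · rw [LIN_l0, LIN_l0] at h0
    rw [LIN_l1, LIN_l1] at h1
    have hx : x - x' ≠ 0 := by
      intro h3
      exact hij (by rw [sub_eq_zero.1 h3])
    have h4 : s * (x - x') = 0 := by linear_combination h1 - x' * h0
    have h5 : s = 0 := (mul_eq_zero.1 h4).resolve_right hx
    rw [h5] at h0
    exact ⟨h5, by linear_combination h0⟩
  · rw [LIN_l0, LIN_r0] at h0
    rw [LIN_l1, LIN_r1] at h1
    have h5 : s = 0 := by linear_combination h0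
    rw [h5] at h1
    exact ⟨h5, by linear_combination h1⟩
  · rw [LIN_r0, LIN_l0] at h0
    rw [LIN_r1, LIN_l1] at h1
    have h5 : t = 0 := by linear_combination h0
    rw [h5] at h1
    exact ⟨by linear_combination h1, h5⟩
  · rw [LIN_r1, LIN_r1] at h1
    rw [LIN_r2, LIN_r2] at h2
    have hy : y.1 - y'.1 ≠ 0 := by
      intro h3
      exact hij (by rw [Subtype.ext (sub_eq_zero.1 h3)])
    have h4 : s * (y.1 - y'.1) = 0 := by linear_combination h2 - y'.1 * h1
    have h5 : s = 0 := (mul_eq_zero.1 h4).resolve_right hy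
    rw [h5] at h1
    exact ⟨h5, by linear_combination h1⟩

theorem LIN_roots [Finite F] (hp : 2 ≤ p) (c : F) : Set.ncard {z : F | z ^ p = c * z} ≤ p := by
  classical
  have hd : (Polynomial.X ^ p - Polynomial.C c * Polynomial.X : Polynomial F).natDegree = p := by
    have h1 : (Polynomial.C c * Polynomial.X : Polynomial F).natDegree < p := by
      refine lt_of_le_of_lt (Polynomial.natDegree_C_mul_le _ _) ?_
      rw [Polynomial.natDegree_X]
      omega
    rw [Polynomial.natDegree_sub_eq_left_of_natDegree_lt]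
    · exact Polynomial.natDegree_X_pow p
    · rw [Polynomial.natDegree_X_pow]
      exact h1
  have hne : (Polynomial.X ^ p - Polynomial.C c * Polynomial.X : Polynomial F) ≠ 0 := by
    intro h
    rw [h, Polynomial.natDegree_zero] at hd
    omega
  have hsub : {z : F | z ^ p = c * z} ⊆
      ((Polynomial.X ^ p - Polynomial.C c * Polynomial.X : Polynomial F).roots.toFinset : Set F) := by
    intro z hz
    have hz' : z ^ p = c * z := hz
    rw [Finset.mem_coe, Multiset.mem_toFinset, Polynomial.mem_roots hne, Polynomial.IsRoot.def]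
    simp [hz']
  calc Set.ncard {z : F | z ^ p = c * z}
      ≤ Set.ncard ((Polynomial.X ^ p - Polynomial.C c * Polynomial.X :
          Polynomial F).roots.toFinset : Set F) := Set.ncard_le_ncard hsub (Finset.finite_toSet _)
    _ = (Polynomial.X ^ p - Polynomial.C c * Polynomial.X : Polynomial F).roots.toFinset.card :=
        Set.ncard_coe_finset _
    _ ≤ Multiset.card (Polynomial.X ^ p - Polynomial.C c * Polynomial.X : Polynomial F).roots :=
        Multiset.toFinset_card_le _
    _ ≤ (Polynomial.X ^ p - Polynomial.C c * Polynomial.X : Polynomial F).natDegree :=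
        Polynomial.card_roots' _
    _ = p := hd

theorem LIN_two [Finite F] (hp : p.Prime) (hchar : ∀ x y : F, (x - y) ^ p = x ^ p - y ^ p) (x₁ : F)
    (j : Idx F p) (hj : (Sum.inl x₁ : Idx F p) ≠ j) :
    Set.ncard {k : Idx F p | ∃ a b : F, vec k = a • vec (Sum.inl x₁ : Idx F p) + b • vec j} ≤
      p + 1 := by
  classical
  have hp2 : 2 ≤ p := hp.two_le
  obtain ⟨c, g, hA, hB⟩ : ∃ (c : F) (g : F → F),
      (∀ x : F, (∃ a b : F, vec (Sum.inl x : Idx F p) = a • vec (Sum.inl x₁ : Idx F p) +
        b • vec j) → ∃ z : F, z ^ p = c * z ∧ x = g z) ∧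
      (∀ y y' : Inf F p, (∃ a b : F, vec (Sum.inr y : Idx F p) =
        a • vec (Sum.inl x₁ : Idx F p) + b • vec j) → (∃ a b : F, vec (Sum.inr y' : Idx F p) =
        a • vec (Sum.inl x₁ : Idx F p) + b • vec j) → y = y') := by
    rcases j with x₂ | y₂
    · have hx : x₂ - x₁ ≠ 0 := by
        intro h3
        exact hj (by rw [sub_eq_zero.1 h3])
      refine ⟨1, fun z => x₁ + z * (x₂ - x₁), ?_, ?_⟩
      · rintro x ⟨a, b, h⟩
        have h0 := LIN_coord h 0
        have h1 := LIN_coord h 1
        have h2 := LIN_coord h 2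
        rw [LIN_l0, LIN_l0, LIN_l0] at h0
        rw [LIN_l1, LIN_l1, LIN_l1] at h1
        rw [LIN_l2, LIN_l2, LIN_l2] at h2
        have ha : a = 1 - b := by linear_combination -h0
        subst ha
        have e1 : x - x₁ = b * (x₂ - x₁) := by linear_combination h1
        have e2 : x ^ p - x₁ ^ p = b * (x₂ ^ p - x₁ ^ p) := by linear_combination h2
        rw [← hchar, ← hchar, e1, mul_pow] at e2
        have e3 : b ^ p = b := mul_right_cancel₀ (pow_ne_zero p hx) e2
        exact ⟨b, by rw [e3, one_mul], by linear_combination e1⟩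
      · rintro y y' ⟨a, b, h⟩ ⟨a', b', h'⟩
        have h0 := LIN_coord h 0
        have h1 := LIN_coord h 1
        have h2 := LIN_coord h 2
        have h0' := LIN_coord h' 0
        have h1' := LIN_coord h' 1
        have h2' := LIN_coord h' 2
        rw [LIN_r0, LIN_l0, LIN_l0] at h0 h0'
        rw [LIN_r1, LIN_l1, LIN_l1] at h1 h1'
        rw [LIN_r2, LIN_l2, LIN_l2] at h2 h2'
        have ha : a = -b := by linear_combination -h0
        have ha' : a' = -b' := by linear_combination -h0'
        subst ha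
        subst ha'
        have e1 : b * (x₂ - x₁) = b' * (x₂ - x₁) := by linear_combination h1' - h1
        have e2 : b = b' := mul_right_cancel₀ hx e1
        apply Subtype.ext
        rw [h2, h2', e2]
    · refine ⟨y₂.1, fun z => x₁ + z, ?_, ?_⟩
      · rintro x ⟨a, b, h⟩
        have h0 := LIN_coord h 0
        have h1 := LIN_coord h 1
        have h2 := LIN_coord h 2
        rw [LIN_l0, LIN_l0, LIN_r0] at h0
        rw [LIN_l1, LIN_l1, LIN_r1] at h1
        rw [LIN_l2, LIN_l2, LIN_r2] at h2
        have ha : a = 1 := by linear_combination -h0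
        subst ha
        have e1 : x - x₁ = b := by linear_combination h1
        have e2 : x ^ p - x₁ ^ p = b * y₂.1 := by linear_combination h2
        rw [← hchar, e1] at e2
        exact ⟨b, by rw [e2, mul_comm], by linear_combination e1⟩
      · rintro y y' ⟨a, b, h⟩ ⟨a', b', h'⟩
        have h0 := LIN_coord h 0
        have h1 := LIN_coord h 1
        have h2 := LIN_coord h 2
        have h0' := LIN_coord h' 0
        have h1' := LIN_coord h' 1
        have h2' := LIN_coord h' 2
        rw [LIN_r0, LIN_l0, LIN_r0] at h0 h0'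
        rw [LIN_r1, LIN_l1, LIN_r1] at h1 h1'
        rw [LIN_r2, LIN_l2, LIN_r2] at h2 h2'
        have ha : a = 0 := by linear_combination -h0
        have ha' : a' = 0 := by linear_combination -h0'
        subst ha
        subst ha'
        have e1 : b = 1 := by linear_combination -h1
        have e1' : b' = 1 := by linear_combination -h1'
        apply Subtype.ext
        rw [h2, h2', e1, e1']
  have hsub : {k : Idx F p | ∃ a b : F, vec k = a • vec (Sum.inl x₁ : Idx F p) + b • vec j} ⊆
      ((fun z : F => (Sum.inl (g z) : Idx F p)) '' {z : F | z ^ p = c * z}) ∪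
      {k : Idx F p | (∃ a b : F, vec k = a • vec (Sum.inl x₁ : Idx F p) + b • vec j) ∧
        ∃ y, k = Sum.inr y} := by
    rintro (x | y) hk
    · obtain ⟨z, hz, hx⟩ := hA x hk
      exact Or.inl ⟨z, hz, by rw [hx]⟩
    · exact Or.inr ⟨hk, y, rfl⟩
  have h1 : Set.ncard ((fun z : F => (Sum.inl (g z) : Idx F p)) '' {z : F | z ^ p = c * z}) ≤ p :=
    (Set.ncard_image_le (Set.toFinite _)).trans (LIN_roots hp2 c)
  have h2 : Set.ncard {k : Idx F p | (∃ a b : F, vec k = a • vec (Sum.inl x₁ : Idx F p) +
      b • vec j) ∧ ∃ y, k = Sum.inr y} ≤ 1 := by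
    rw [Set.ncard_le_one (Set.toFinite _)]
    rintro _ ⟨hk, y, rfl⟩ _ ⟨hk', y', rfl⟩
    rw [hB y y' hk hk']
  exact (Set.ncard_le_ncard hsub (Set.toFinite _)).trans ((Set.ncard_union_le _ _).trans
    (add_le_add h1 h2))

end lin

theorem lin_ok : S_LIN := by
  intro F _ p hp hF
  have hfin : Finite F := Nat.finite_of_card_ne_zero (by
    rw [hF]
    exact pow_ne_zero _ hp.ne_zero)
  have hfact : Fact p.Prime := ⟨hp⟩
  have hp0 : (p : F) = 0 := by
    have := Fintype.ofFinite F
    have h1 : ((Fintype.card F : ℕ) : F) = 0 := Nat.cast_card_eq_zero F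
    rw [← Nat.card_eq_fintype_card, hF, Nat.cast_pow] at h1
    exact pow_eq_zero_iff (by norm_num) |>.1 h1
  have hchp : CharP F p := (CharP.charP_iff_prime_eq_zero hp).2 hp0
  have hchar : ∀ x y : F, (x - y) ^ p = x ^ p - y ^ p := fun x y => sub_pow_char x y
  refine ⟨LIN_one, ?_, ?_⟩
  · rintro i j hij (⟨x, rfl⟩ | ⟨x, rfl⟩)
    · exact LIN_two hp hchar x j hij
    · have h := LIN_two hp hchar x i hij.symm
      have he : {k : Idx F p | ∃ a b : F, vec k = a • vec (Sum.inl x : Idx F p) + b • vec i} =
          {k : Idx F p | ∃ a b : F, vec k = a • vec i + b • vec (Sum.inl x : Idx F p)} := by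
        ext k
        constructor
        · rintro ⟨a, b, h⟩
          exact ⟨b, a, by rw [h, add_comm]⟩
        · rintro ⟨a, b, h⟩
          exact ⟨b, a, by rw [h, add_comm]⟩
      rw [he] at h
      exact h
  · rintro y z (x | w) ⟨a, b, h⟩
    · exfalso
      have h0 := LIN_coord h 0
      rw [LIN_l0, LIN_r0, LIN_r0] at h0
      simp at h0
    · exact ⟨w, rfl⟩

end Pool.Agent.U638.BS
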